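import Pool.Agent.W682.BQ.Stm

set_option autoImplicit false

/-! BQ-ALGB : the quadratic form inequality of the certificate. -/

namespace Pool.Agent.W337.BQ.Algb

open Pool.Agent.W488.IW Pool.Agent.W488.IX Pool.Agent.W682.BQ

lemma quad (x y b U V : ℝ) (hx : 0 ≤ x) (hy : 0 ≤ y) (h : b ^ 2 ≤ 4 * x * y) :
    0 ≤ x * U ^ 2 + y * V ^ 2 + b * (U * V) := by
  rcases hx.eq_or_lt with hx0 | hx0
  · have hb : b = 0 := by
      have h2 : b ^ 2 ≤ 0 := by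
        rw [← hx0] at h; linarith
      have h3 : b ^ 2 = 0 := le_antisymm h2 (sq_nonneg b)
      exact pow_eq_zero_iff (two_ne_zero) |>.1 h3
    rw [hb, ← hx0]
    have := mul_nonneg hy (sq_nonneg V)
    linarith
  · have h4 : 0 ≤ 4 * x * (x * U ^ 2 + y * V ^ 2 + b * (U * V)) := by
      have e : 4 * x * (x * U ^ 2 + y * V ^ 2 + b * (U * V)) =
          (2 * x * U + b * V) ^ 2 + (4 * x * y - b ^ 2) * V ^ 2 := by ring
      rw [e]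
      have := mul_nonneg (sub_nonneg.2 h) (sq_nonneg V)
      positivity
    have h5 : 0 < 4 * x := by linarith
    by_contra hc
    push Not at hc
    have := mul_neg_of_pos_of_neg h5 hc
    linarith

/-- the main form of the zeta part -/
noncomputable def Zf (l A T Q R : ℝ) : ℝ :=
  l * A * ((1 - T) * ((2 + T) * Q + T * R) ^ 2)
    + (1 - l * A) * (T ^ 2 * (R - Q) ^ 2 + 4 * (1 - T ^ 2) * Q ^ 2)

lemma Zf_nonneg {l A T : ℝ} (Q R : ℝ) (hA : 0 ≤ A ∧ A ≤ 1) (hl : 0 ≤ l ∧ l ≤ 1)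
    (hT : -1 < T ∧ T < 1) : 0 ≤ Zf l A T Q R := by
  have h1 : 0 ≤ l * A := mul_nonneg hl.1 hA.1
  have h2 : l * A ≤ 1 := mul_le_one₀ hl.2 hA.1 hA.2
  have h3 : 0 ≤ 1 - T ^ 2 := by nlinarith [hT.1, hT.2]
  have h4 : 0 ≤ 1 - T := by linarith [hT.2]
  have h5 : 0 ≤ 1 - l * A := by linarith
  unfold Zf
  positivity

lemma zeta_id (l A T δ n1 Q R : ℝ) :
    T ^ 2 * (1 - l * (A * T)) * R ^ 2
      + ((2 + 4 * δ + n1) * (2 - T ^ 2) - T ^ 2 * (1 + l * (A * T))) * Q ^ 2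
      + (2 * (l * (A * T)) * (2 - T ^ 2) - (2 + 4 * δ + n1) * T ^ 2) * (Q * R)
    = Zf l A T Q R + (4 * δ + n1) * ((2 - T ^ 2) * Q ^ 2 - T ^ 2 * (Q * R)) := by
  unfold Zf; ring

/-- part (ii) -/
lemma part2 {a T ζ ν n1 W : ℝ} (Q R : ℝ) (ha : a = 1 - T ^ 2) (ha0 : 0 ≤ a)
    (hν : 0 ≤ ν) (n1e : (2 - T ^ 2) * ζ * n1 = 4 * (1 - T ^ 2) * ν)
    (hW : (1 + a) ^ 2 * W = a ^ 2 * ν) :
    8 * W * Q ^ 2 ≤ ζ * n1 * ((2 - T ^ 2) * Q ^ 2 - T ^ 2 * (Q * R))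
      + 2 * (1 - T ^ 2) * ν * (R ^ 2 - Q ^ 2) := by
  have hT2 : T ^ 2 = 1 - a := by linarith
  rw [hT2] at n1e ⊢
  have e1 : (1 + a) * (ζ * n1) = 4 * a * ν := by linear_combination n1e
  set u := ζ * n1 with hu
  have h1a : 0 < 1 + a := by linarith
  have key : (1 + a) ^ 2 * (u * ((2 - (1 - a)) * Q ^ 2 - (1 - a) * (Q * R))
      + 2 * (1 - (1 - a)) * ν * (R ^ 2 - Q ^ 2) - 8 * W * Q ^ 2) =
      2 * a * ν * ((1 + a) * R - (1 - a) * Q) ^ 2 := by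
    linear_combination ((1 + a) * ((2 - (1 - a)) * Q ^ 2 - (1 - a) * (Q * R))) * e1
      - 8 * Q ^ 2 * hW
  have h2 : 0 ≤ (1 + a) ^ 2 * (u * ((2 - (1 - a)) * Q ^ 2 - (1 - a) * (Q * R))
      + 2 * (1 - (1 - a)) * ν * (R ^ 2 - Q ^ 2) - 8 * W * Q ^ 2) := by
    rw [key]; positivity
  have h3 := nonneg_of_mul_nonneg_right h2 (by positivity)
  linarith

/-- part (iii) -/
lemma part3 {K δ0 l A T δ ζ : ℝ} (Q R : ℝ) (hA : 0 ≤ A ∧ A ≤ 1) (hl : 0 ≤ l ∧ l ≤ 1)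
    (hT : -1 < T ∧ T < 1) (hζ : 0 ≤ ζ) (hδ : 0 ≤ δ) (hK : 0 ≤ K * δ0) (dz : δ * ζ ≤ K * δ0) :
    -(1 / 2 * ζ * Zf l A T Q R) - K * δ0 * (R + l * (A * T) * Q) ^ 2
      - 8 * (K * δ0) * δ * Q ^ 2 ≤ 4 * δ * ζ * ((2 - T ^ 2) * Q ^ 2 - T ^ 2 * (Q * R)) := by
  have h1 : 0 ≤ l * A := mul_nonneg hl.1 hA.1
  have h2 : l * A ≤ 1 := mul_le_one₀ hl.2 hA.1 hA.2
  have hT2 : 0 ≤ 1 - T ^ 2 := by nlinarith [hT.1, hT.2]
  have hT2' : T ^ 2 ≤ 1 := by linarith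
  have hZ := Zf_nonneg Q R hA hl hT
  have hQ := sq_nonneg Q
  have hδζ : 0 ≤ δ * ζ := mul_nonneg hδ hζ
  rcases le_or_gt 0 T with hT0 | hT0
  · have hc : 0 ≤ l * (A * T) := by have := hA.1; have := hl.1; positivity
    set c := l * (A * T) with hcdef
    have key : 0 ≤ 4 * ((2 - T ^ 2) * Q ^ 2 - T ^ 2 * (Q * R)) + (R + c * Q) ^ 2 := by
      have e : 4 * ((2 - T ^ 2) * Q ^ 2 - T ^ 2 * (Q * R)) + (R + c * Q) ^ 2 =
          (R + c * Q - 2 * T ^ 2 * Q) ^ 2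
            + 4 * ((1 - T ^ 2) + (1 - T ^ 2 * T ^ 2) + T ^ 2 * c) * Q ^ 2 := by ring
      rw [e]
      have h3 : 0 ≤ 1 - T ^ 2 * T ^ 2 := by nlinarith [sq_nonneg T]
      positivity
    have h4 := mul_nonneg hδζ key
    have h5 : δ * ζ * (R + c * Q) ^ 2 ≤ K * δ0 * (R + c * Q) ^ 2 :=
      mul_le_mul_of_nonneg_right dz (sq_nonneg _)
    have h6 : 0 ≤ 1 / 2 * ζ * Zf l A T Q R := by positivity
    have h7 : 0 ≤ 8 * (K * δ0) * δ * Q ^ 2 := by positivity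
    nlinarith [h4, h5, h6, h7]
  · have id1 : 4 * δ * ζ * ((2 - T ^ 2) * Q ^ 2 - T ^ 2 * (Q * R)) + 1 / 2 * ζ * Zf l A T Q R
        + 8 * (δ * δ) * ζ * Q ^ 2 =
        ζ * (l * A) * (8 * (1 + T) * δ * Q ^ 2
          + 1 / 2 * (((2 + T) * Q + T * R) - 4 * δ * T * Q) ^ 2
          + 1 / 2 * (-T) * ((2 + T) * Q + T * R) ^ 2 + 8 * δ ^ 2 * (1 - T ^ 2) * Q ^ 2)
        + ζ * (1 - l * A) * (8 * δ * (1 - T ^ 2) * Q ^ 2
          + 1 / 2 * T ^ 2 * ((R - Q) - 4 * δ * Q) ^ 2 + 8 * δ ^ 2 * (1 - T ^ 2) * Q ^ 2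
          + 2 * (1 - T ^ 2) * Q ^ 2) := by
      unfold Zf; ring
    have h3 : 0 ≤ 1 + T := by linarith [hT.1]
    have h4 : 0 ≤ -T := by linarith
    have h5 : 0 ≤ 1 - l * A := by linarith
    have h6 : 0 ≤ ζ * (l * A) * (8 * (1 + T) * δ * Q ^ 2
          + 1 / 2 * (((2 + T) * Q + T * R) - 4 * δ * T * Q) ^ 2
          + 1 / 2 * (-T) * ((2 + T) * Q + T * R) ^ 2 + 8 * δ ^ 2 * (1 - T ^ 2) * Q ^ 2)
        + ζ * (1 - l * A) * (8 * δ * (1 - T ^ 2) * Q ^ 2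
          + 1 / 2 * T ^ 2 * ((R - Q) - 4 * δ * Q) ^ 2 + 8 * δ ^ 2 * (1 - T ^ 2) * Q ^ 2
          + 2 * (1 - T ^ 2) * Q ^ 2) := by positivity
    rw [← id1] at h6
    have h7 : (δ * δ) * ζ ≤ K * δ0 * δ := by nlinarith [mul_le_mul_of_nonneg_left dz hδ]
    have h8 : 8 * (δ * δ) * ζ * Q ^ 2 ≤ 8 * (K * δ0) * δ * Q ^ 2 := by
      have := mul_le_mul_of_nonneg_right h7 hQ
      nlinarith [this]
    have h9 : 0 ≤ K * δ0 * (R + l * (A * T) * Q) ^ 2 := by positivity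
    linarith

lemma s_sq (P Q R : ℝ) : (|P| + |Q| + |R|) ^ 2 ≤ 3 * (P ^ 2 + Q ^ 2 + R ^ 2) := by
  have h1 := sq_abs P
  have h2 := sq_abs Q
  have h3 := sq_abs R
  nlinarith [sq_nonneg (|P| - |Q|), sq_nonneg (|P| - |R|), sq_nonneg (|Q| - |R|)]

/-- error of the `rho` part when `A` is replaced by `1` -/
lemma err1 {A T δ n1 : ℝ} (P Q R : ℝ) (hA : 0 ≤ A ∧ A ≤ 1) (hT : -1 < T ∧ T < 1)
    (hδ : 0 ≤ δ ∧ δ ≤ 1) (hn1 : 0 ≤ n1) :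
    (1 + T) * (P + (1 + T) * Q + T * R) * (T * P + (2 + 4 * δ + n1) * Q + T * R)
      - 84 * (1 - A) * (1 + n1) * (P ^ 2 + Q ^ 2 + R ^ 2)
    ≤ (A + T) * (A * P + (A + T) * Q + T * R) * (A * T * P + (2 + 4 * δ + n1) * Q + A * T * R) := by
  set n := 2 + 4 * δ + n1 with hn
  have hn6 : n ≤ 6 + n1 := by linarith [hδ.2]
  have hn0 : 0 ≤ n := by linarith [hδ.1]
  set s := |P| + |Q| + |R| with hs
  have hs2 : s ^ 2 ≤ 3 * (P ^ 2 + Q ^ 2 + R ^ 2) := s_sq P Q R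
  have hP : |P| ≤ s := by have := abs_nonneg Q; have := abs_nonneg R; linarith
  have hQ : |Q| ≤ s := by have := abs_nonneg P; have := abs_nonneg R; linarith
  have hR : |R| ≤ s := by have := abs_nonneg Q; have := abs_nonneg P; linarith
  have p0 := abs_nonneg P
  have q0 := abs_nonneg Q
  have r0 := abs_nonneg R
  have hs0 : 0 ≤ s := by positivity
  have hTa : |T| ≤ 1 := abs_le.2 ⟨by linarith [hT.1], by linarith [hT.2]⟩
  have hAa : |A| ≤ 1 := abs_le.2 ⟨by linarith [hA.1], by linarith [hA.2]⟩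
  have h1T : |1 + T| ≤ 2 := abs_le.2 ⟨by linarith [hT.1], by linarith [hT.2]⟩
  have hAT : |A + T| ≤ 2 := abs_le.2 ⟨by linarith [hT.1, hA.1], by linarith [hT.2, hA.2]⟩
  have m1 : ∀ x y b : ℝ, |x| ≤ b → |x * y| ≤ b * |y| := fun x y b h => by
    rw [abs_mul]; exact mul_le_mul_of_nonneg_right h (abs_nonneg y)
  have hX2 : |P + (1 + T) * Q + T * R| ≤ 2 * s := by
    have := abs_add_three P ((1 + T) * Q) (T * R)
    have := m1 (1 + T) Q 2 h1T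
    have := m1 T R 1 hTa
    linarith
  have hX1 : |A * P + (A + T) * Q + T * R| ≤ 2 * s := by
    have := abs_add_three (A * P) ((A + T) * Q) (T * R)
    have := m1 A P 1 hAa
    have := m1 (A + T) Q 2 hAT
    have := m1 T R 1 hTa
    linarith
  have hY2 : |T * P + n * Q + T * R| ≤ (6 + n1) * s := by
    have h1 := abs_add_three (T * P) (n * Q) (T * R)
    have h2 := m1 T P 1 hTa
    have h3 := m1 n Q (6 + n1) (by rw [abs_of_nonneg hn0]; exact hn6)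
    have h4 := m1 T R 1 hTa
    have h5 : 0 ≤ (6 + n1 - 1) * |P| := mul_nonneg (by linarith) p0
    have h6 : 0 ≤ (6 + n1 - 1) * |R| := mul_nonneg (by linarith) r0
    have h7 : (6 + n1) * s = (6 + n1) * |P| + (6 + n1) * |Q| + (6 + n1) * |R| := by
      rw [hs]; ring
    rw [h7]
    nlinarith [h1, h2, h3, h4, h5, h6]
  have hPQ : |P + Q| ≤ s := by have := abs_add_le P Q; linarith
  have hPR : |T * (P + R)| ≤ s := by
    have := m1 T (P + R) 1 hTa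
    have := abs_add_le P R
    linarith
  have e : (A + T) * (A * P + (A + T) * Q + T * R) * (A * T * P + n * Q + A * T * R)
      - (1 + T) * (P + (1 + T) * Q + T * R) * (T * P + n * Q + T * R) =
      -((1 - A) * ((P + (1 + T) * Q + T * R) * (T * P + n * Q + T * R)
        + (A + T) * ((P + Q) * (T * P + n * Q + T * R)
          + (A * P + (A + T) * Q + T * R) * (T * (P + R))))) := by ring
  have b1 : |(P + (1 + T) * Q + T * R) * (T * P + n * Q + T * R)| ≤ 2 * s * ((6 + n1) * s) := by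
    rw [abs_mul]
    exact mul_le_mul hX2 hY2 (abs_nonneg _) (by positivity)
  have b2 : |(P + Q) * (T * P + n * Q + T * R)| ≤ s * ((6 + n1) * s) := by
    rw [abs_mul]
    exact mul_le_mul hPQ hY2 (abs_nonneg _) (by positivity)
  have b3 : |(A * P + (A + T) * Q + T * R) * (T * (P + R))| ≤ 2 * s * s := by
    rw [abs_mul]
    exact mul_le_mul hX1 hPR (abs_nonneg _) (by positivity)
  have b4 : |(A + T) * ((P + Q) * (T * P + n * Q + T * R)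
          + (A * P + (A + T) * Q + T * R) * (T * (P + R)))| ≤
          2 * (s * ((6 + n1) * s) + 2 * s * s) := by
    rw [abs_mul]
    refine mul_le_mul hAT ?_ (abs_nonneg _) (by norm_num)
    exact (abs_add_le _ _).trans (add_le_add b2 b3)
  have b5 : (P + (1 + T) * Q + T * R) * (T * P + n * Q + T * R)
        + (A + T) * ((P + Q) * (T * P + n * Q + T * R)
          + (A * P + (A + T) * Q + T * R) * (T * (P + R))) ≤
        84 * (1 + n1) * (P ^ 2 + Q ^ 2 + R ^ 2) := by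
    have c1 := (abs_le.1 b1).2
    have c2 := (abs_le.1 b4).2
    have c3 : 2 * s * ((6 + n1) * s) + 2 * (s * ((6 + n1) * s) + 2 * s * s) =
        (28 + 4 * n1) * s ^ 2 := by ring
    have c4 : (28 + 4 * n1) * s ^ 2 ≤ 28 * (1 + n1) * s ^ 2 := by
      apply mul_le_mul_of_nonneg_right _ (sq_nonneg s)
      linarith
    have c5 : 28 * (1 + n1) * s ^ 2 ≤ 28 * (1 + n1) * (3 * (P ^ 2 + Q ^ 2 + R ^ 2)) :=
      mul_le_mul_of_nonneg_left hs2 (by positivity)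
    linarith
  have b6 := mul_le_mul_of_nonneg_left b5 (sub_nonneg.2 hA.2)
  linarith [e, b6]

/-- error of the `k` part when `A` is replaced by `1` -/
lemma err2 {A T : ℝ} (P Q R : ℝ) (hA : 0 ≤ A ∧ A ≤ 1) (hT : -1 < T ∧ T < 1) :
    (P - Q) * (P + (1 + T) * Q + T * R) - 4 * (1 - A) * (P ^ 2 + Q ^ 2 + R ^ 2)
    ≤ A * (A * (P ^ 2 - Q ^ 2) + T * (P - Q) * (Q + R)) := by
  have e : A * (A * (P ^ 2 - Q ^ 2) + T * (P - Q) * (Q + R))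
      - (P - Q) * (P + (1 + T) * Q + T * R) =
      -((1 - A) * ((1 + A) * (P ^ 2 - Q ^ 2) + T * ((P - Q) * (Q + R)))) := by ring
  have h1 : (1 + A) * (P ^ 2 - Q ^ 2) ≤ 2 * P ^ 2 := by
    nlinarith [sq_nonneg P, sq_nonneg Q, hA.1, hA.2, mul_nonneg hA.1 (sq_nonneg Q),
      mul_nonneg (sub_nonneg.2 hA.2) (sq_nonneg P)]
  have h2 : T * ((P - Q) * (Q + R)) ≤ 2 * (P ^ 2 + Q ^ 2 + R ^ 2) := by
    have h3 : |(P - Q) * (Q + R)| ≤ 2 * (P ^ 2 + Q ^ 2 + R ^ 2) := by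
      rw [abs_le]
      constructor <;>
      nlinarith [sq_nonneg (P - Q + (Q + R)), sq_nonneg (P - Q - (Q + R)), sq_nonneg (P + Q),
        sq_nonneg (Q - R), sq_nonneg P, sq_nonneg R]
    have hTa : |T| ≤ 1 := abs_le.2 ⟨by linarith [hT.1], by linarith [hT.2]⟩
    calc T * ((P - Q) * (Q + R)) ≤ |T * ((P - Q) * (Q + R))| := le_abs_self _
      _ = |T| * |(P - Q) * (Q + R)| := abs_mul _ _
      _ ≤ 1 * (2 * (P ^ 2 + Q ^ 2 + R ^ 2)) :=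
          mul_le_mul hTa h3 (abs_nonneg _) (by norm_num)
      _ = _ := one_mul _
  have h4 : (1 + A) * (P ^ 2 - Q ^ 2) + T * ((P - Q) * (Q + R)) ≤
      4 * (P ^ 2 + Q ^ 2 + R ^ 2) := by
    nlinarith [sq_nonneg Q, sq_nonneg R]
  have h5 := mul_le_mul_of_nonneg_left h4 (sub_nonneg.2 hA.2)
  linarith

/-- part (vi), the bound of `rho n1 ^ 2` -/
lemma rhon {K ε a T k ρ ζ ν n1 W : ℝ} (ha : a = 1 - T ^ 2) (ha0 : 0 < a)
    (hρ : 0 ≤ ρ ∧ ρ ≤ k) (hζ : 0 ≤ ζ) (hν : 0 ≤ ν)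
    (n1e : (2 - T ^ 2) * ζ * n1 = 4 * (1 - T ^ 2) * ν)
    (lc : ρ * ν ≤ 2 / 3 * ζ ^ 2) (kk : (1 - T ^ 2) * k ^ 2 ≤ K * ε * ζ)
    (hW : (1 + a) ^ 2 * W = a ^ 2 * ν) (hW0 : 0 ≤ W) :
    9 / 16 * (ρ * n1 ^ 2) ≤ 6 * W := by
  rcases hζ.eq_or_lt with h0 | h0
  · rw [← h0, ← ha] at kk
    have h1 : k ^ 2 ≤ 0 := by
      by_contra hc
      push Not at hc
      have := mul_pos ha0 hc
      linarith
    have h2 : k = 0 := pow_eq_zero_iff (two_ne_zero) |>.1 (le_antisymm h1 (sq_nonneg k))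
    have h3 : ρ = 0 := le_antisymm (by linarith [hρ.2]) hρ.1
    rw [h3]; linarith
  · have hT2 : T ^ 2 = 1 - a := by linarith
    rw [hT2] at n1e
    have e1 : (1 + a) * (ζ * n1) = 4 * a * ν := by linear_combination n1e
    have h1 : ζ ^ 2 * ((1 + a) ^ 2 * (ρ * n1 ^ 2)) ≤ ζ ^ 2 * (32 / 3 * (a ^ 2 * ν)) := by
      have e2 : ζ ^ 2 * ((1 + a) ^ 2 * (ρ * n1 ^ 2)) = 16 * a ^ 2 * ν * (ρ * ν) := by
        have : ζ ^ 2 * ((1 + a) ^ 2 * (ρ * n1 ^ 2)) = ρ * ((1 + a) * (ζ * n1)) ^ 2 := by ring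
        rw [this, e1]; ring
      rw [e2]
      have := mul_le_mul_of_nonneg_left lc (show 0 ≤ 16 * a ^ 2 * ν by positivity)
      nlinarith [this]
    have h2 : (1 + a) ^ 2 * (ρ * n1 ^ 2) ≤ 32 / 3 * (a ^ 2 * ν) :=
      le_of_mul_le_mul_left h1 (by positivity)
    rw [← hW] at h2
    have h3 : (1 + a) ^ 2 * (9 / 16 * (ρ * n1 ^ 2)) ≤ (1 + a) ^ 2 * (6 * W) := by linarith
    exact le_of_mul_le_mul_left h3 (by positivity)

/-- the `L Z` term -/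
lemma partLZ {K ε A T k ρ ζ a : ℝ} (P Q R L Z N : ℝ) (ha : a = 1 - T ^ 2) (hK : 0 ≤ K) (hε : 0 ≤ ε)
    (hA : 0 ≤ A ∧ A ≤ 1) (hT : -1 < T ∧ T < 1) (hρ : 0 ≤ ρ ∧ ρ ≤ k)
    (hζ : 0 ≤ ζ) (kk : a * k ^ 2 ≤ K * ε * ζ) (A3 : (1 - A) * a * k ≤ K * ε)
    (hL : L = P + (1 + T) * Q + T * R) (hZ : Z = (2 + T) * Q + T * R)
    (hN : N = P ^ 2 + Q ^ 2 + R ^ 2) :
    -(1 / 2 * ζ * Zf 1 A T Q R) - 12 * (K * ε) * N ≤ a * (ρ - k / 2) * (L * Z) := by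
  have hN0 : 0 ≤ N := by rw [hN]; positivity
  have ha0 : 0 ≤ a := by rw [ha]; nlinarith only [hT.1, hT.2]
  have h1mT : 0 ≤ 1 - T := by linarith only [hT.2]
  have h1pT : 0 ≤ 1 + T := by linarith only [hT.1]
  have hu : 0 ≤ 1 - A := sub_nonneg.2 hA.2
  have hs2 : (|P| + |Q| + |R|) ^ 2 ≤ 3 * N := by rw [hN]; exact s_sq P Q R
  obtain ⟨s, hs⟩ : ∃ s : ℝ, s = |P| + |Q| + |R| := ⟨_, rfl⟩
  rw [← hs] at hs2
  have p0 := abs_nonneg P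
  have q0 := abs_nonneg Q
  have r0 := abs_nonneg R
  have hs0 : 0 ≤ s := by rw [hs]; positivity
  have hTa : |T| ≤ 1 := abs_le.2 ⟨by linarith only [hT.1], by linarith only [hT.2]⟩
  have h1T : |1 + T| ≤ 2 := abs_le.2 ⟨by linarith only [hT.1], by linarith only [hT.2]⟩
  have h2T : |2 + T| ≤ 3 := abs_le.2 ⟨by linarith only [hT.1], by linarith only [hT.2]⟩
  have m1 : ∀ x y b : ℝ, |x| ≤ b → |x * y| ≤ b * |y| := fun x y b h => by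
    rw [abs_mul]; exact mul_le_mul_of_nonneg_right h (abs_nonneg y)
  have hLs : |L| ≤ 2 * s := by
    rw [hL]
    have h1 := abs_add_three P ((1 + T) * Q) (T * R)
    have h2 := m1 (1 + T) Q 2 h1T
    have h3 := m1 T R 1 hTa
    linarith only [h1, h2, h3, hs, p0, q0, r0]
  have hZs : |Z| ≤ 3 * s := by
    rw [hZ]
    have h1 := abs_add_le ((2 + T) * Q) (T * R)
    have h2 := m1 (2 + T) Q 3 h2T
    have h3 := m1 T R 1 hTa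
    linarith only [h1, h2, h3, hs, p0, q0, r0]
  have hLZ : |L * Z| ≤ 18 * N := by
    rw [abs_mul]
    have h1 : |L| * |Z| ≤ 2 * s * (3 * s) :=
      mul_le_mul hLs hZs (abs_nonneg _) (by positivity)
    have h2 : 2 * s * (3 * s) = 6 * s ^ 2 := by ring
    linarith only [h1, h2, hs2]
  have hL2 : L ^ 2 ≤ 12 * N := by
    have h1 : L ^ 2 = |L| * |L| := by rw [← sq, sq_abs]
    have h2 : |L| * |L| ≤ 2 * s * (2 * s) :=
      mul_le_mul hLs hLs (abs_nonneg _) (by positivity)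
    have h3 : 2 * s * (2 * s) = 4 * s ^ 2 := by ring
    linarith only [h1, h2, h3, hs2]
  have hrk : |ρ - k / 2| ≤ k / 2 :=
    abs_le.2 ⟨by linarith only [hρ.1], by linarith only [hρ.2]⟩
  have hKε : 0 ≤ K * ε := mul_nonneg hK hε
  have hb : (a * (ρ - k / 2)) ^ 2 ≤ 4 * (1 / 2 * ζ * (1 - T)) * (K * ε / 4) := by
    have h1 : (ρ - k / 2) ^ 2 ≤ (k / 2) ^ 2 := sq_le_sq' (by linarith only [(abs_le.1 hrk).1])
      (abs_le.1 hrk).2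
    have h2 : (a * (ρ - k / 2)) ^ 2 ≤ a ^ 2 * (k / 2) ^ 2 := by
      rw [mul_pow]; exact mul_le_mul_of_nonneg_left h1 (sq_nonneg a)
    have h3 : a ^ 2 * (k / 2) ^ 2 = 1 / 4 * ((1 - T) * (1 + T)) * (a * k ^ 2) := by
      have : a ^ 2 = ((1 - T) * (1 + T)) * a := by rw [ha]; ring
      rw [this]; ring
    have h4 : 1 / 4 * ((1 - T) * (1 + T)) * (a * k ^ 2) ≤
        1 / 4 * ((1 - T) * (1 + T)) * (K * ε * ζ) :=
      mul_le_mul_of_nonneg_left kk (by positivity)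
    have h5 : 1 / 4 * ((1 - T) * (1 + T)) * (K * ε * ζ) ≤
        1 / 4 * ((1 - T) * 2) * (K * ε * ζ) := by
      apply mul_le_mul_of_nonneg_right _ (by positivity)
      apply mul_le_mul_of_nonneg_left _ (by norm_num)
      apply mul_le_mul_of_nonneg_left _ h1mT
      linarith only [hT.2]
    linarith only [h2, h3, h4, h5]
  have q1 := quad (1 / 2 * ζ * (1 - T)) (K * ε / 4) (a * (ρ - k / 2)) Z L (by positivity)
    (by positivity) hb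
  have q2 := mul_nonneg hA.1 q1
  have q3 : -(9 * (K * ε) * N) ≤ (1 - A) * (a * (ρ - k / 2) * (Z * L)) := by
    have h1 : |(1 - A) * (a * (ρ - k / 2) * (Z * L))| ≤ 9 * (K * ε) * N := by
      have e : (1 - A) * (a * (ρ - k / 2) * (Z * L)) =
          ((1 - A) * a) * (ρ - k / 2) * (L * Z) := by ring
      rw [e, abs_mul, abs_mul, abs_of_nonneg (mul_nonneg hu ha0)]
      have h2 : (1 - A) * a * |ρ - k / 2| ≤ (1 - A) * a * (k / 2) :=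
        mul_le_mul_of_nonneg_left hrk (mul_nonneg hu ha0)
      have h3 : (1 - A) * a * (k / 2) ≤ K * ε / 2 := by linarith only [A3]
      have h4 : (1 - A) * a * |ρ - k / 2| * |L * Z| ≤ K * ε / 2 * (18 * N) :=
        mul_le_mul (h2.trans h3) hLZ (abs_nonneg _) (by positivity)
      linarith only [h4]
    exact (abs_le.1 h1).1
  have q4 : A * (1 / 2 * ζ * (1 - T) * Z ^ 2) ≤ 1 / 2 * ζ * Zf 1 A T Q R := by
    have e : 1 / 2 * ζ * Zf 1 A T Q R = A * (1 / 2 * ζ * (1 - T) * Z ^ 2)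
        + 1 / 2 * ζ * ((1 - A) * (T ^ 2 * (R - Q) ^ 2 + 4 * a * Q ^ 2)) := by
      unfold Zf; rw [hZ, ha]; ring
    rw [e]
    have h1 : 0 ≤ 1 / 2 * ζ * ((1 - A) * (T ^ 2 * (R - Q) ^ 2 + 4 * a * Q ^ 2)) := by
      positivity
    linarith only [h1]
  have q5 : A * (K * ε / 4 * L ^ 2) ≤ 3 * (K * ε) * N := by
    have h1 : K * ε / 4 * L ^ 2 ≤ K * ε / 4 * (12 * N) :=
      mul_le_mul_of_nonneg_left hL2 (by positivity)
    have h2 : A * (K * ε / 4 * L ^ 2) ≤ 1 * (K * ε / 4 * (12 * N)) :=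
      mul_le_mul hA.2 h1 (by positivity) (by norm_num)
    linarith only [h2]
  have e : a * (ρ - k / 2) * (L * Z) = A * (a * (ρ - k / 2) * (Z * L))
      + (1 - A) * (a * (ρ - k / 2) * (Z * L)) := by ring
  rw [e]
  have e2 : A * (1 / 2 * ζ * (1 - T) * Z ^ 2 + K * ε / 4 * L ^ 2
      + a * (ρ - k / 2) * (Z * L)) = A * (1 / 2 * ζ * (1 - T) * Z ^ 2)
      + A * (K * ε / 4 * L ^ 2) + A * (a * (ρ - k / 2) * (Z * L)) := by ring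
  rw [e2] at q2
  linarith only [q2, q3, q4, q5]

/-- the error of the `rho` part -/
lemma partF1 {K ε A T ρ n1 δ : ℝ} (P Q R L N : ℝ)
    (hA : 0 ≤ A ∧ A ≤ 1) (hT : -1 < T ∧ T < 1) (hρ : 0 ≤ ρ) (hn1 : 0 ≤ n1)
    (hδ : 0 ≤ δ ∧ δ ≤ 1) (A1 : (1 - A) * ρ ≤ K * ε) (A2 : (1 - A) * ρ * n1 ≤ K * ε)
    (hL : L = P + (1 + T) * Q + T * R) (hN : N = P ^ 2 + Q ^ 2 + R ^ 2) :
    ρ * ((1 + T) * L * (T * P + (2 + 4 * δ + n1) * Q + T * R)) - 168 * (K * ε) * N ≤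
      ρ * (A + T) * (A * P + (A + T) * Q + T * R) *
        (1 * (A * T) * P + (2 + 4 * δ + n1) * Q + 1 * (A * T) * R) := by
  have hN0 : 0 ≤ N := by rw [hN]; positivity
  have E1 := err1 P Q R hA hT hδ hn1
  rw [← hL, ← hN] at E1
  have h1 := mul_le_mul_of_nonneg_left E1 hρ
  have h2 : ρ * (84 * (1 - A) * (1 + n1) * N) ≤ 168 * (K * ε) * N := by
    have h3 : 84 * ((1 - A) * ρ + (1 - A) * ρ * n1) ≤ 168 * (K * ε) := by
      linarith only [A1, A2]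
    have h4 := mul_le_mul_of_nonneg_right h3 hN0
    have h5 : ρ * (84 * (1 - A) * (1 + n1) * N) =
        84 * ((1 - A) * ρ + (1 - A) * ρ * n1) * N := by ring
    rw [h5]; exact h4
  have h6 : ρ * (A + T) * (A * P + (A + T) * Q + T * R) *
      (1 * (A * T) * P + (2 + 4 * δ + n1) * Q + 1 * (A * T) * R) =
      ρ * ((A + T) * (A * P + (A + T) * Q + T * R) *
        (A * T * P + (2 + 4 * δ + n1) * Q + A * T * R)) := by ring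
  rw [h6]
  have h7 : ρ * ((1 + T) * L * (T * P + (2 + 4 * δ + n1) * Q + T * R)
    - 84 * (1 - A) * (1 + n1) * N) =
    ρ * ((1 + T) * L * (T * P + (2 + 4 * δ + n1) * Q + T * R)) -
      ρ * (84 * (1 - A) * (1 + n1) * N) := by ring
  rw [h7] at h1
  linarith only [h1, h2]

/-- the error of the `k` part -/
lemma partF2 {K ε A T k a : ℝ} (P Q R L Z N : ℝ) (ha : a = 1 - T ^ 2)
    (hA : 0 ≤ A ∧ A ≤ 1) (hT : -1 < T ∧ T < 1) (hk : 0 ≤ k)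
    (A3 : (1 - A) * a * k ≤ K * ε)
    (hL : L = P + (1 + T) * Q + T * R) (hZ : Z = (2 + T) * Q + T * R)
    (hN : N = P ^ 2 + Q ^ 2 + R ^ 2) :
    1 / 2 * a * k * ((L - Z) * L) - 2 * (K * ε) * N ≤
      1 / 2 * a * A * k * (A * (P ^ 2 - Q ^ 2) + T * (P - Q) * (Q + R)) := by
  have hN0 : 0 ≤ N := by rw [hN]; positivity
  have ha0 : 0 ≤ a := by rw [ha]; nlinarith only [hT.1, hT.2]
  have E2 := err2 P Q R hA hT
  rw [← hL, ← hN] at E2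
  have hPQ : P - Q = L - Z := by rw [hL, hZ]; ring
  have h0 : 0 ≤ 1 / 2 * a * k := by positivity
  have h1 := mul_le_mul_of_nonneg_left E2 h0
  have h2 : 1 / 2 * a * k * (4 * (1 - A) * N) ≤ 2 * (K * ε) * N := by
    have h4 := mul_le_mul_of_nonneg_right A3 hN0
    have h5 : 1 / 2 * a * k * (4 * (1 - A) * N) = 2 * ((1 - A) * a * k * N) := by ring
    rw [h5]; linarith only [h4]
  have h6 : 1 / 2 * a * k * ((P - Q) * L - 4 * (1 - A) * N) =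
      1 / 2 * a * k * ((P - Q) * L) - 1 / 2 * a * k * (4 * (1 - A) * N) := by ring
  rw [h6, hPQ] at h1
  have h7 : 1 / 2 * a * A * k * (A * (P ^ 2 - Q ^ 2) + T * (P - Q) * (Q + R)) =
      1 / 2 * a * k * (A * (A * (P ^ 2 - Q ^ 2) + T * (P - Q) * (Q + R))) := by ring
  rw [h7, hPQ]
  linarith only [h1, h2]

/-- the `L Q` term -/
lemma partLQ {K δ0 T k ρ n1 δ W : ℝ} (Q L : ℝ) (hK : 0 ≤ K)
    (hk : 0 ≤ k ∧ k ≤ K) (hρ : 0 ≤ ρ ∧ ρ ≤ k) (hδ : 0 ≤ δ ∧ δ ≤ δ0)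
    (hn : 9 / 16 * (ρ * n1 ^ 2) ≤ 6 * W) :
    -(6 * W * Q ^ 2) - 72 * (K * δ0) * δ * Q ^ 2 ≤ 1 / 2 * ρ * (1 + T) ^ 2 * L ^ 2
      + ρ * (1 + T) * (4 * δ + n1) * (L * Q) := by
  have hQ := sq_nonneg Q
  have g2 : -(1 / 2 * ρ * (4 * δ + n1) ^ 2 * Q ^ 2) ≤ 1 / 2 * ρ * (1 + T) ^ 2 * L ^ 2
      + ρ * (1 + T) * (4 * δ + n1) * (L * Q) := by
    have h1 : 0 ≤ 1 / 2 * ρ * ((1 + T) * L + (4 * δ + n1) * Q) ^ 2 := by
      have := hρ.1; positivity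
    have h2 : 1 / 2 * ρ * ((1 + T) * L + (4 * δ + n1) * Q) ^ 2 =
        1 / 2 * ρ * (1 + T) ^ 2 * L ^ 2 + ρ * (1 + T) * (4 * δ + n1) * (L * Q)
          + 1 / 2 * ρ * (4 * δ + n1) ^ 2 * Q ^ 2 := by ring
    linarith only [h1, h2]
  have g3 : 1 / 2 * ρ * (4 * δ + n1) ^ 2 * Q ^ 2 ≤ 6 * W * Q ^ 2 + 72 * (K * δ0) * δ * Q ^ 2 := by
    have h1 : 1 / 2 * ρ * (4 * δ + n1) ^ 2 ≤ 9 / 16 * (ρ * n1 ^ 2) + 72 * (ρ * δ ^ 2) := by
      have h2 : 0 ≤ ρ * (n1 / 4 - 8 * δ) ^ 2 := by have := hρ.1; positivity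
      have h3 : 9 / 16 * (ρ * n1 ^ 2) + 72 * (ρ * δ ^ 2) - 1 / 2 * ρ * (4 * δ + n1) ^ 2 =
        ρ * (n1 / 4 - 8 * δ) ^ 2 := by ring
      linarith only [h2, h3]
    have h3 : ρ * δ ^ 2 ≤ K * δ0 * δ := by
      have h4 : ρ * δ ≤ K * δ0 :=
        mul_le_mul (hρ.2.trans hk.2) hδ.2 hδ.1 hK
      have h5 := mul_le_mul_of_nonneg_right h4 hδ.1
      have h6 : ρ * δ ^ 2 = ρ * δ * δ := by ring
      linarith only [h5, h6]
    have h5 : 1 / 2 * ρ * (4 * δ + n1) ^ 2 ≤ 6 * W + 72 * (K * δ0 * δ) := by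
      linarith only [h1, h3, hn]
    have h6 := mul_le_mul_of_nonneg_right h5 hQ
    have h7 : (6 * W + 72 * (K * δ0 * δ)) * Q ^ 2 =
      6 * W * Q ^ 2 + 72 * (K * δ0) * δ * Q ^ 2 := by ring
    linarith only [h6, h7]
  linarith only [g2, g3]

/-- the parts with `rho` and `k`, case `l = 1` -/
lemma partRK {K ε δ0 A T k ρ ζ n1 δ W a : ℝ} (P Q R N : ℝ) (ha : a = 1 - T ^ 2)
    (hN : N = P ^ 2 + Q ^ 2 + R ^ 2) (hK : 0 ≤ K) (hε : 0 ≤ ε)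
    (hA : 0 ≤ A ∧ A ≤ 1) (hT : -1 < T ∧ T < 1) (hk : 0 ≤ k ∧ k ≤ K) (hρ : 0 ≤ ρ ∧ ρ ≤ k)
    (hζ : 0 ≤ ζ) (hn1 : 0 ≤ n1) (kk : a * k ^ 2 ≤ K * ε * ζ)
    (hδ : 0 ≤ δ ∧ δ ≤ δ0) (hδ0 : δ0 ≤ 1)
    (A1 : (1 - A) * ρ ≤ K * ε) (A2 : (1 - A) * ρ * n1 ≤ K * ε)
    (A3 : (1 - A) * a * k ≤ K * ε) (hn : 9 / 16 * (ρ * n1 ^ 2) ≤ 6 * W) :
    -(1 / 2 * ζ * Zf 1 A T Q R) - 6 * W * Q ^ 2 - 72 * (K * δ0) * δ * Q ^ 2
      - 182 * (K * ε) * N ≤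
    ρ * (A + T) * (A * P + (A + T) * Q + T * R) *
        (1 * (A * T) * P + (2 + 4 * δ + n1) * Q + 1 * (A * T) * R)
      + 1 / 2 * a * A * k * (A * (P ^ 2 - Q ^ 2) + T * (P - Q) * (Q + R)) := by
  obtain ⟨L, hL⟩ : ∃ L : ℝ, L = P + (1 + T) * Q + T * R := ⟨_, rfl⟩
  obtain ⟨Z, hZ⟩ : ∃ Z : ℝ, Z = (2 + T) * Q + T * R := ⟨_, rfl⟩
  have ha0 : 0 ≤ a := by rw [ha]; nlinarith only [hT.1, hT.2]
  have F1 := partF1 (K := K) (ε := ε) P Q R L N hA hT hρ.1 hn1 ⟨hδ.1, hδ.2.trans hδ0⟩ A1 A2 hL hN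
  have F2 := partF2 (K := K) (ε := ε) P Q R L Z N ha hA hT hk.1 A3 hL hZ hN
  have id1 : ρ * ((1 + T) * L * (T * P + (2 + 4 * δ + n1) * Q + T * R))
      + 1 / 2 * a * k * ((L - Z) * L) =
      (ρ * (1 + T) * T + a * k / 2) * L ^ 2 + a * (ρ - k / 2) * (L * Z)
        + ρ * (1 + T) * (4 * δ + n1) * (L * Q) := by
    have h1 : T * P + (2 + 4 * δ + n1) * Q + T * R =
      T * L + (1 - T) * Z + (4 * δ + n1) * Q := by rw [hL, hZ]; ring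
    rw [h1, ha]; ring
  have g1 : 1 / 2 * ρ * (1 + T) ^ 2 * L ^ 2 ≤ (ρ * (1 + T) * T + a * k / 2) * L ^ 2 := by
    apply mul_le_mul_of_nonneg_right _ (sq_nonneg L)
    have h1 : a * ρ ≤ a * k := mul_le_mul_of_nonneg_left hρ.2 ha0
    have h2 : 1 / 2 * ρ * (1 + T) ^ 2 = ρ * (1 + T) * T + a * ρ / 2 := by rw [ha]; ring
    rw [h2]; linarith only [h1]
  have g3 := partLQ (T := T) Q L hK hk hρ hδ hn
  have g4 := partLZ P Q R L Z N ha hK hε hA hT hρ hζ kk A3 hL hZ hN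
  linarith only [F1, F2, id1, g1, g3, g4]

/-- the parts with `xi` and `l1` -/
lemma part7 {K ε A T l ξ ν l1 : ℝ} (P Q R : ℝ) (hKε : 0 ≤ K * ε)
    (hA : 0 ≤ A ∧ A ≤ 1) (hT : -1 < T ∧ T < 1) (hl : 0 ≤ l ∧ l ≤ 1) (hl1 : |l1| ≤ K * ε)
    (hξ : 0 ≤ ξ)
    (xx : (1 - T ^ 2) * ξ ≤ 1 / 4 * ((1 - T ^ 2) ^ 2 * ν) + K * ε) :
    -(1 / 4 * ((1 - T ^ 2) ^ 2 * ν) * Q ^ 2) - 3 / 2 * (K * ε) * (P ^ 2 + Q ^ 2 + R ^ 2) ≤
    1 / 2 * (1 - T ^ 2) * ((2 - A ^ 2) * (l * ξ) + A ^ 2 * l1) * (P ^ 2 - Q ^ 2) := by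
  set a := 1 - T ^ 2 with ha
  have ha0 : 0 ≤ a := by nlinarith [hT.1, hT.2]
  have ha1 : a ≤ 1 := by nlinarith [sq_nonneg T]
  have hP := sq_nonneg P
  have hQ := sq_nonneg Q
  have hR := sq_nonneg R
  have hA2 : 0 ≤ A ^ 2 := sq_nonneg A
  have hA21 : A ^ 2 ≤ 1 := by nlinarith [hA.1, hA.2]
  have h1 : -(a * ξ * Q ^ 2) ≤ 1 / 2 * a * ((2 - A ^ 2) * (l * ξ)) * (P ^ 2 - Q ^ 2) := by
    have hc : 0 ≤ 1 / 2 * a * ((2 - A ^ 2) * (l * ξ)) := by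
      have := hl.1
      have h3 : 0 ≤ 2 - A ^ 2 := by linarith
      positivity
    have hc2 : 1 / 2 * a * ((2 - A ^ 2) * (l * ξ)) ≤ a * ξ := by
      have h3 : (2 - A ^ 2) * (l * ξ) ≤ 2 * (1 * ξ) := by
        apply mul_le_mul
        · linarith
        · exact mul_le_mul_of_nonneg_right hl.2 hξ
        · exact mul_nonneg hl.1 hξ
        · norm_num
      have := mul_le_mul_of_nonneg_left h3 ha0
      linarith
    have h4 := mul_le_mul_of_nonneg_right hc2 hQ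
    have h5 := mul_nonneg hc hP
    linarith
  have h2 : -(1 / 2 * (K * ε) * (P ^ 2 + Q ^ 2 + R ^ 2)) ≤
      1 / 2 * a * (A ^ 2 * l1) * (P ^ 2 - Q ^ 2) := by
    have h3 : |1 / 2 * a * (A ^ 2 * l1) * (P ^ 2 - Q ^ 2)| ≤
        1 / 2 * (K * ε) * (P ^ 2 + Q ^ 2 + R ^ 2) := by
      rw [abs_mul]
      apply mul_le_mul
      · rw [abs_mul, abs_of_nonneg (by positivity : 0 ≤ 1 / 2 * a), abs_mul,
          abs_of_nonneg hA2]
        have h4 : A ^ 2 * |l1| ≤ 1 * (K * ε) := mul_le_mul hA21 hl1 (abs_nonneg _) (by norm_num)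
        have h5 : 1 / 2 * a * (A ^ 2 * |l1|) ≤ 1 / 2 * (1 * (K * ε)) :=
          mul_le_mul (by linarith) h4 (by positivity) (by norm_num)
        linarith
      · rw [abs_le]; constructor <;> linarith
      · exact abs_nonneg _
      · positivity
    exact (abs_le.1 h3).1
  have h6 : a * ξ * Q ^ 2 ≤ (1 / 4 * (a ^ 2 * ν) + K * ε) * Q ^ 2 :=
    mul_le_mul_of_nonneg_right xx hQ
  have h7 : K * ε * Q ^ 2 ≤ K * ε * (P ^ 2 + Q ^ 2 + R ^ 2) :=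
    mul_le_mul_of_nonneg_left (by linarith) hKε
  have e : 1 / 2 * a * ((2 - A ^ 2) * (l * ξ) + A ^ 2 * l1) * (P ^ 2 - Q ^ 2) =
      1 / 2 * a * ((2 - A ^ 2) * (l * ξ)) * (P ^ 2 - Q ^ 2)
      + 1 / 2 * a * (A ^ 2 * l1) * (P ^ 2 - Q ^ 2) := by ring
  rw [e]
  linarith

/-- the theta part -/
lemma part8 {A T l n δ n1 b : ℝ} (P Q R : ℝ)
    (hA : 0 ≤ A ∧ A ≤ 1) (hT : -1 < T ∧ T < 1) (hl : 0 ≤ l ∧ l ≤ 1)
    (hn : n = 2 + 4 * δ + n1) (hn1 : 0 ≤ n1) (hδ : 0 ≤ δ ∧ δ ≤ 1)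
    (hb : b = (1 - T ^ 2) + δ) :
    1 / 16 * b * (P ^ 2 + Q ^ 2 + R ^ 2) + (R + l * (A * T) * Q) ^ 2 + δ * Q ^ 2 ≤
    2 * ((P + l * (A * T) * Q) ^ 2 + (R + l * (A * T) * Q) ^ 2
      + (2 * n - 2 - 2 * (l * (A * T)) ^ 2) * Q ^ 2) := by
  have ha0 : 0 ≤ 1 - T ^ 2 := by nlinarith [hT.1, hT.2]
  have ha1 : 1 - T ^ 2 ≤ 1 := by nlinarith [sq_nonneg T]
  have hlA0 : 0 ≤ l * A := mul_nonneg hl.1 hA.1
  have hlA : l * A ≤ 1 := mul_le_one₀ hl.2 hA.1 hA.2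
  have hc2 : (l * (A * T)) ^ 2 ≤ T ^ 2 := by
    have h1 : (l * A) ^ 2 ≤ 1 := by nlinarith
    have h2 : (l * (A * T)) ^ 2 = (l * A) ^ 2 * T ^ 2 := by ring
    rw [h2]
    have := mul_le_mul_of_nonneg_right h1 (sq_nonneg T)
    linarith
  set c := l * (A * T) with hc
  have hc1 : c ^ 2 ≤ 1 := by linarith
  have hQ := sq_nonneg Q
  have hb0 : 0 ≤ b := by rw [hb]; linarith [hδ.1]
  have hb2 : b ≤ 2 := by rw [hb]; linarith [hδ.2]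
  have h1 : P ^ 2 ≤ 2 * (P + c * Q) ^ 2 + 2 * Q ^ 2 := by
    have : c ^ 2 * Q ^ 2 ≤ 1 * Q ^ 2 := mul_le_mul_of_nonneg_right hc1 hQ
    nlinarith [sq_nonneg (P + 2 * (c * Q)), this]
  have h2 : R ^ 2 ≤ 2 * (R + c * Q) ^ 2 + 2 * Q ^ 2 := by
    have : c ^ 2 * Q ^ 2 ≤ 1 * Q ^ 2 := mul_le_mul_of_nonneg_right hc1 hQ
    nlinarith [sq_nonneg (R + 2 * (c * Q)), this]
  have h3 : 1 / 16 * b * (P ^ 2 + Q ^ 2 + R ^ 2) ≤
      1 / 16 * b * (2 * (P + c * Q) ^ 2 + 2 * (R + c * Q) ^ 2 + 5 * Q ^ 2) :=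
    mul_le_mul_of_nonneg_left (by linarith) (by positivity)
  have h4 : 1 / 16 * b * (2 * (P + c * Q) ^ 2 + 2 * (R + c * Q) ^ 2) ≤
      1 / 16 * 2 * (2 * (P + c * Q) ^ 2 + 2 * (R + c * Q) ^ 2) :=
    mul_le_mul_of_nonneg_right (by linarith) (by positivity)
  have h5 : (2 * (1 - T ^ 2) + 8 * δ) * Q ^ 2 ≤ (2 * n - 2 - 2 * c ^ 2) * Q ^ 2 :=
    mul_le_mul_of_nonneg_right (by rw [hn]; linarith) hQ
  have h6 : 0 ≤ (P + c * Q) ^ 2 := sq_nonneg _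
  have h7 : 0 ≤ (R + c * Q) ^ 2 := sq_nonneg _
  have h8 : b * Q ^ 2 = (1 - T ^ 2) * Q ^ 2 + δ * Q ^ 2 := by rw [hb]; ring
  have h9 : 0 ≤ (1 - T ^ 2) * Q ^ 2 := mul_nonneg ha0 hQ
  have h10 : 0 ≤ δ * Q ^ 2 := mul_nonneg hδ.1 hQ
  nlinarith [h3, h4, h5, h6, h7, h8, h9, h10]

/-- the whole estimate for one sign of `T` -/
lemma core {K ϑ ε δ0 C A T l k ρ ζ ξ ν n1 δ l1 : ℝ} (hK : 1 ≤ K) (hϑ : 0 < ϑ) (hε : 0 < ε)
    (hδ00 : 0 < δ0) (hδ0 : δ0 ≤ 1) (hδ01 : 80 * (K * δ0) ≤ ϑ) (hC : 184 * 16 * K ≤ ϑ * C)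
    (hA : 0 ≤ A ∧ A ≤ 1) (hT : -1 < T ∧ T < 1) (hl : 0 ≤ l ∧ l ≤ 1) (hl1 : |l1| ≤ K * ε)
    (dj : l = 1 ∨ (k = 0 ∧ ρ = 0)) (hk : 0 ≤ k ∧ k ≤ K) (hρ : 0 ≤ ρ ∧ ρ ≤ k)
    (hζ : 0 ≤ ζ) (hξ : 0 ≤ ξ) (hν : 0 ≤ ν) (hn1 : 0 ≤ n1)
    (n1e : (2 - T ^ 2) * ζ * n1 = 4 * (1 - T ^ 2) * ν)
    (lc : ρ * ν ≤ 2 / 3 * ζ ^ 2) (kk : (1 - T ^ 2) * k ^ 2 ≤ K * ε * ζ)
    (xx : (1 - T ^ 2) * ξ ≤ 1 / 4 * ((1 - T ^ 2) ^ 2 * ν) + K * ε)
    (hδ : 0 ≤ δ ∧ δ ≤ δ0) (dz : δ * ζ ≤ K * δ0) (sl : C * ε ≤ (1 - T ^ 2) + δ)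
    (A1 : (1 - A) * ρ ≤ K * ε) (A2 : (1 - A) * ρ * n1 ≤ K * ε)
    (A3 : (1 - A) * (1 - T ^ 2) * k ≤ K * ε) (P Q R : ℝ) :
    0 ≤ MB A T l k ρ ζ ξ ν l1 ϑ (2 + 4 * δ + n1) P Q R := by
  have hK0 : 0 ≤ K := by linarith
  have hKε : 0 ≤ K * ε := by positivity
  have hKδ : 0 ≤ K * δ0 := by positivity
  set a := 1 - T ^ 2 with ha
  have ha0 : 0 < a := by nlinarith only [hT.1, hT.2, ha]
  have ha1 : a ≤ 1 := by nlinarith only [sq_nonneg T, ha]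
  set N := P ^ 2 + Q ^ 2 + R ^ 2 with hN
  have hN0 : 0 ≤ N := by positivity
  have hQ := sq_nonneg Q
  obtain ⟨W, hWd⟩ : ∃ W : ℝ, W = a ^ 2 * ν / (1 + a) ^ 2 := ⟨_, rfl⟩
  have hW : (1 + a) ^ 2 * W = a ^ 2 * ν := by
    rw [hWd]; field_simp
  have hW0 : 0 ≤ W := by rw [hWd]; positivity
  have hW4 : a ^ 2 * ν ≤ 4 * W := by
    rw [← hW]
    apply mul_le_mul_of_nonneg_right _ hW0
    nlinarith only [ha0, ha1]
  have P2 := part2 (a := a) (T := T) Q R ha ha0.le hν n1e hW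
  have P3 := part3 (K := K) (δ0 := δ0) Q R hA hl hT hζ hδ.1 hKδ dz
  have P7 := part7 P Q R hKε hA hT hl hl1 hξ xx
  have P8 := part8 (b := a + δ) P Q R hA hT hl rfl hn1 ⟨hδ.1, hδ.2.trans hδ0⟩ (by rw [ha])
  have hZ0 := Zf_nonneg Q R hA hl hT
  have RK : -(1 / 2 * ζ * Zf l A T Q R) - 6 * W * Q ^ 2 - 72 * (K * δ0) * δ * Q ^ 2
      - 182 * (K * ε) * N ≤
    ρ * (A + T) * (A * P + (A + T) * Q + T * R) *
        (l * (A * T) * P + (2 + 4 * δ + n1) * Q + l * (A * T) * R)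
      + 1 / 2 * a * A * k * (A * (P ^ 2 - Q ^ 2) + T * (P - Q) * (Q + R)) := by
    rcases dj with h | ⟨h1, h2⟩
    · have hn := rhon (K := K) (ε := ε) (a := a) (T := T) ha ha0 hρ hζ hν n1e lc kk hW hW0
      rw [h]
      exact partRK P Q R N ha hN hK0 hε.le hA hT hk hρ hζ hn1 kk hδ hδ0 A1 A2 A3 hn
    · rw [h1, h2]
      have h3 : 0 ≤ 1 / 2 * ζ * Zf l A T Q R := by positivity
      have h4 : 0 ≤ 6 * W * Q ^ 2 := by positivity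
      have h5 : 0 ≤ 72 * (K * δ0) * δ * Q ^ 2 := by have := hδ.1; positivity
      have h6 : 0 ≤ 182 * (K * ε) * N := by positivity
      linarith only [h3, h4, h5, h6]
  rw [← ha, ← hN] at P7
  rw [← hN] at P8
  -- the theta part beats everything
  have T1 := mul_le_mul_of_nonneg_left P8 hϑ.le
  have T2 : 184 * (K * ε) * N ≤ ϑ * (1 / 16 * (a + δ) * N) := by
    have h1 : ϑ * (C * ε) ≤ ϑ * (a + δ) := mul_le_mul_of_nonneg_left sl hϑ.le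
    have h2 : 184 * 16 * K * ε ≤ ϑ * C * ε := mul_le_mul_of_nonneg_right hC hε.le
    have h3 : 184 * 16 * (K * ε) ≤ ϑ * (a + δ) := by linarith only [h1, h2]
    have h4 := mul_le_mul_of_nonneg_right h3 hN0
    linarith only [h4]
  have T3 : K * δ0 * (R + l * (A * T) * Q) ^ 2 ≤ ϑ * (R + l * (A * T) * Q) ^ 2 :=
    mul_le_mul_of_nonneg_right (by linarith only [hδ01, hKδ]) (sq_nonneg _)
  have T4 : 80 * (K * δ0) * δ * Q ^ 2 ≤ ϑ * (δ * Q ^ 2) := by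
    have h1 := mul_le_mul_of_nonneg_right hδ01 (mul_nonneg hδ.1 hQ)
    linarith only [h1]
  have T5 : 1 / 4 * (a ^ 2 * ν) * Q ^ 2 ≤ 2 * W * Q ^ 2 :=
    mul_le_mul_of_nonneg_right (by linarith only [hW4, hW0]) hQ
  have e : MB A T l k ρ ζ ξ ν l1 ϑ (2 + 4 * δ + n1) P Q R =
      (ρ * (A + T) * (A * P + (A + T) * Q + T * R) *
        (l * (A * T) * P + (2 + 4 * δ + n1) * Q + l * (A * T) * R)
      + 1 / 2 * a * A * k * (A * (P ^ 2 - Q ^ 2) + T * (P - Q) * (Q + R)))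
      + ζ * Zf l A T Q R
      + 4 * δ * ζ * ((2 - T ^ 2) * Q ^ 2 - T ^ 2 * (Q * R))
      + (ζ * n1 * ((2 - T ^ 2) * Q ^ 2 - T ^ 2 * (Q * R)) + 2 * a * ν * (R ^ 2 - Q ^ 2))
      + 1 / 2 * a * ((2 - A ^ 2) * (l * ξ) + A ^ 2 * l1) * (P ^ 2 - Q ^ 2)
      + ϑ * (2 * ((P + l * (A * T) * Q) ^ 2 + (R + l * (A * T) * Q) ^ 2
        + (2 * (2 + 4 * δ + n1) - 2 - 2 * (l * (A * T)) ^ 2) * Q ^ 2)) := by
    unfold MB
    rw [zeta_id, ← ha]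
    ring
  rw [e]
  have e2 : ϑ * (1 / 16 * (a + δ) * N + (R + l * (A * T) * Q) ^ 2 + δ * Q ^ 2) =
      ϑ * (1 / 16 * (a + δ) * N) + ϑ * (R + l * (A * T) * Q) ^ 2 + ϑ * (δ * Q ^ 2) := by ring
  rw [e2] at T1
  have hKN : 0 ≤ K * ε * N := mul_nonneg hKε hN0
  linarith only [P2, P3, P7, T1, T2, T3, T4, T5, RK, hKN]

theorem main : S_ALGB := by
  intro K ϑ hK hϑ
  have hK0 : 0 < K := by linarith
  refine ⟨min 1 (ϑ / (80 * K)), 184 * 16 * K / ϑ, ?_, min_le_left _ _, ?_, ?_⟩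
  · exact lt_min one_pos (by positivity)
  · positivity
  · intro ε A T l k ρ ζ ξ ν n1 δ l1 hε _ h P Q R
    have hδ00 : 0 < min 1 (ϑ / (80 * K)) := lt_min one_pos (by positivity)
    have hδ01 : 80 * (K * min 1 (ϑ / (80 * K))) ≤ ϑ := by
      have h1 : min 1 (ϑ / (80 * K)) ≤ ϑ / (80 * K) := min_le_right _ _
      have h2 := mul_le_mul_of_nonneg_left h1 (show 0 ≤ 80 * K by positivity)
      have h3 : 80 * K * (ϑ / (80 * K)) = ϑ := by field_simp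
      rw [h3] at h2
      linarith
    have hC : 184 * 16 * K ≤ ϑ * (184 * 16 * K / ϑ) := by
      have : ϑ * (184 * 16 * K / ϑ) = 184 * 16 * K := by field_simp
      rw [this]
    constructor
    · exact core hK hϑ hε hδ00 (min_le_left _ _) hδ01 hC h.hA ⟨by linarith [h.hT.1], h.hT.2⟩
        h.hl h.hl1 h.dj h.hk h.hρ h.hζ h.hξ h.hν h.hn1 h.n1e h.lc h.kk h.xx h.hδ h.dz h.sl
        h.A1 h.A2 h.A3 P Q R
    · have hs : (-T) ^ 2 = T ^ 2 := by ring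
      refine core hK hϑ hε hδ00 (min_le_left _ _) hδ01 hC h.hA
        ⟨by linarith [h.hT.2], by linarith [h.hT.1]⟩
        h.hl h.hl1 h.dj h.hk h.hρ h.hζ h.hξ h.hν h.hn1 ?_ h.lc ?_ ?_ h.hδ h.dz ?_
        h.A1 h.A2 ?_ P Q R
      · rw [hs]; exact h.n1e
      · rw [hs]; exact h.kk
      · rw [hs]; exact h.xx
      · rw [hs]; exact h.sl
      · rw [hs]; exact h.A3

end Pool.Agent.W337.BQ.Algb
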